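import Pool.Agent.H37.CNT.Stmts
import Pool.Agent.H73.CND.CVN

/-!
# Board `cnt`, row S2C: the conductors of the subgroups of `EG k p h` containing `{w = 0}`
-/

set_option autoImplicit false

namespace Pool.CND

open Finset

namespace S2C

section place

variable {k L : Type} [Field k] [Field L] [Algebra k L] (P : Place k L)

/-- a solution of a polynomial equation with integral right side is integral at the place -/
theorem int_of {x r : L} {n : ℕ} (hn : 2 ≤ n) (hr : P.Ge r 0) (h : x ^ n - x = r) : P.Ge x 0 := by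
  by_contra hx
  obtain ⟨hx0, hxlt⟩ := P.not_ge.1 hx
  have h1 : P.ord (x ^ n) = n * P.ord x := P.ord_pow hx0 n
  have h2 : (n : ℤ) * P.ord x + 1 ≤ P.ord x := by
    have : (2 : ℤ) ≤ n := by exact_mod_cast hn
    nlinarith
  have hlt : P.ord (x ^ n) < 0 := by
    rw [h1]
    have : (2 : ℤ) ≤ n := by exact_mod_cast hn
    nlinarith
  have h3 : P.Ge (-x) (P.ord (x ^ n) + 1) := P.ge_neg (P.ge_mono (P.ge_ord x) (by rw [h1]; exact h2))
  obtain ⟨h4, h5⟩ := P.ord_add_of_lt (pow_ne_zero n hx0) h3
  rw [← sub_eq_add_neg, h] at h4 h5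
  have h6 := (P.ge_iff h4 0).1 hr
  omega

/-- an automorphism which fixes the place and translates an integral element by a constant -/
theorem const_of {g : L ≃ₐ[k] L} (hg : Fixes P g) {x : L} (hx : P.Ge x 0) {w : k}
    (h : g x = x + algebraMap k L w) : w = 0 := by
  by_contra hw
  obtain ⟨c, hc⟩ : ∃ c : k, P.Ge (x - algebraMap k L c) 1 := by
    by_cases hx0 : x = 0
    · exact ⟨0, Or.inl (by rw [hx0, map_zero, sub_zero])⟩
    · obtain ⟨c, hc⟩ := P.residue x hx0 ((P.ge_iff hx0 0).1 hx)
      refine ⟨c, ?_⟩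
      rcases hc with hc | hc
      · exact Or.inl (by rw [← hc, sub_self])
      · exact Or.inr (by omega)
  have h1 : P.Ge (g (x - algebraMap k L c)) 1 := hg.ge hc
  have h2 : algebraMap k L w = g (x - algebraMap k L c) - (x - algebraMap k L c) := by
    rw [map_sub, h, AlgEquiv.commutes]
    ring
  have h3 : P.Ge (algebraMap k L w) 1 := by
    rw [h2]
    exact P.ge_sub h1 hc
  have h4 : algebraMap k L w ≠ 0 := by
    rw [Ne, map_eq_zero]
    exact hw
  have h5 := (P.ge_iff h4 1).1 h3
  rw [P.ord_const w hw] at h5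
  omega

/-- the order of `∏ (x - v)` at a pole of `x` -/
theorem ord_prod {x : L} (hx : x ≠ 0) (hlt : P.ord x < 0) (S : Finset k) :
    ∏ v ∈ S, (x - algebraMap k L v) ≠ 0 ∧
      P.ord (∏ v ∈ S, (x - algebraMap k L v)) = S.card * P.ord x := by
  classical
  induction S using Finset.induction_on with
  | empty =>
    rw [prod_empty]
    exact ⟨one_ne_zero, by rw [P.ord_one]; simp⟩
  | insert v S hv ih =>
    have h1 : x - algebraMap k L v ≠ 0 ∧ P.ord (x - algebraMap k L v) = P.ord x := by
      rw [sub_eq_add_neg]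
      exact P.ord_add_of_lt hx (P.ge_neg (P.ge_mono (P.ge_const v) (by omega)))
    rw [prod_insert hv]
    refine ⟨mul_ne_zero h1.1 ih.1, ?_⟩
    rw [P.ord_mul _ _ h1.1 ih.1, h1.2, ih.2, card_insert_of_notMem hv]
    push_cast
    ring

/-- elements of nonzero order are transcendental -/
theorem transc [IsAlgClosed k] {t : L} (ht : t ≠ 0) (h : P.ord t ≠ 0) : Transcendental k t := by
  intro halg
  have hint : IsIntegral k t := isAlgebraic_iff_isIntegral.1 halg
  have h1 := IsAlgClosed.degree_eq_one_of_irreducible k (minpoly.irreducible hint)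
  obtain ⟨c, hc⟩ := minpoly.mem_range_of_degree_eq_one k t h1
  have hc0 : c ≠ 0 := by
    rintro rfl
    rw [map_zero] at hc
    exact ht hc.symm
  apply h
  rw [← hc]
  exact P.ord_const c hc0

end place

section degree

variable {k L : Type} [Field k] [Field L] [Algebra k L]

/-- the degree of an element which is a root of a monic polynomial -/
theorem finrank_le {K : Type} [Field K] [Algebra K L] {x : L} {n : ℕ} (Q : Polynomial K)
    (hQ : Q.Monic) (hn : Q.natDegree ≤ n) (hx : Polynomial.aeval x Q = 0) :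
    IsIntegral K x ∧ Module.finrank K (IntermediateField.adjoin K {x}) ≤ n := by
  have hint : IsIntegral K x := ⟨Q, hQ, hx⟩
  refine ⟨hint, ?_⟩
  rw [IntermediateField.adjoin.finrank hint]
  exact (Polynomial.natDegree_le_natDegree (minpoly.min K x hQ hx)).trans hn

theorem tower (K E L : Type) [Field K] [Field E] [Field L] [Algebra K E] [Algebra E L] [Algebra K L]
    [IsScalarTower K E L] : Module.finrank K E * Module.finrank E L = Module.finrank K L :=
  Module.finrank_mul_finrank K E L

/-- the degree of `L = k(s, x, y)` over `k(t)` -/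
theorem finrank_cover (S : Finset k) (hS : 1 ≤ S.card) {p N : ℕ} (hp : 2 ≤ p) {s x y : L} {q : ℕ}
    (hs : x ^ N + x = s) (hy : y ^ p - y = x ^ q)
    (hspan : ∀ z : L, ∃ c : Fin N → Fin p → L,
      (∀ i j, c i j ∈ IntermediateField.adjoin k {s}) ∧
        z = ∑ i, ∑ j, c i j * x ^ (i : ℕ) * y ^ (j : ℕ)) :
    FiniteDimensional (IntermediateField.adjoin k {∏ v ∈ S, (x - algebraMap k L v)}) L ∧
    Module.finrank (IntermediateField.adjoin k {∏ v ∈ S, (x - algebraMap k L v)}) L ≤
      S.card * p := by
  set t : L := ∏ v ∈ S, (x - algebraMap k L v) with ht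
  set K : IntermediateField k L := IntermediateField.adjoin k {t} with hK
  have htK : t ∈ K := IntermediateField.mem_adjoin_simple_self k t
  let A : Polynomial K := ∏ v ∈ S, (Polynomial.X - Polynomial.C (algebraMap k K v))
  have hA : A.Monic := Polynomial.monic_prod_of_monic _ _ fun v _ => Polynomial.monic_X_sub_C _
  have hAd : A.natDegree = S.card := by
    rw [Polynomial.natDegree_prod_of_monic _ _ fun v _ => Polynomial.monic_X_sub_C _]
    simp
  have hlt : (Polynomial.C (⟨t, htK⟩ : K)).degree < A.degree := by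
    refine lt_of_le_of_lt Polynomial.degree_C_le ?_
    rw [Polynomial.degree_eq_natDegree hA.ne_zero, hAd]
    exact_mod_cast hS
  have hQ : (A - Polynomial.C (⟨t, htK⟩ : K)).Monic := hA.sub_of_left hlt
  have hQd : (A - Polynomial.C (⟨t, htK⟩ : K)).natDegree ≤ S.card := by
    refine (Polynomial.natDegree_sub_le _ _).trans ?_
    rw [hAd, Polynomial.natDegree_C]
    simp
  have hQx : Polynomial.aeval x (A - Polynomial.C (⟨t, htK⟩ : K)) = 0 := by
    rw [map_sub, map_prod, Polynomial.aeval_C]
    have h1 : ∀ v ∈ S, Polynomial.aeval x (Polynomial.X - Polynomial.C (algebraMap k K v)) =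
        x - algebraMap k L v := by
      intro v _
      rw [map_sub, Polynomial.aeval_X, Polynomial.aeval_C]
      rfl
    rw [prod_congr rfl h1]
    exact sub_self t
  obtain ⟨hx1, hx2⟩ := finrank_le _ hQ hQd hQx
  let E : IntermediateField K L := IntermediateField.adjoin K {x}
  have hxE : x ∈ E := IntermediateField.mem_adjoin_simple_self K x
  let Bq : Polynomial E := Polynomial.X ^ p + (-Polynomial.X - Polynomial.C ⟨x ^ q, pow_mem hxE q⟩)
  have hBl : (-Polynomial.X - Polynomial.C (⟨x ^ q, pow_mem hxE q⟩ : E)).degree < (p : WithBot ℕ) := by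
    refine lt_of_le_of_lt (Polynomial.degree_sub_le _ _) ?_
    rw [Polynomial.degree_neg, max_lt_iff]
    constructor
    · refine lt_of_le_of_lt Polynomial.degree_X_le ?_
      exact_mod_cast hp
    · refine lt_of_le_of_lt Polynomial.degree_C_le ?_
      exact_mod_cast (by omega : 0 < p)
  have hB : Bq.Monic := Polynomial.monic_X_pow_add hBl
  have hBd : Bq.natDegree ≤ p := by
    refine Polynomial.natDegree_le_of_degree_le ?_
    refine (Polynomial.degree_add_le _ _).trans ?_
    rw [Polynomial.degree_X_pow]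
    exact max_le le_rfl hBl.le
  have hBy : Polynomial.aeval y Bq = 0 := by
    simp only [Bq, map_add, map_sub, map_neg, map_pow, Polynomial.aeval_X, Polynomial.aeval_C]
    change y ^ p + (-y - x ^ q) = 0
    rw [← hy]
    ring
  obtain ⟨hy1, hy2⟩ := finrank_le _ hB hBd hBy
  let F : IntermediateField E L := IntermediateField.adjoin E {y}
  have hyF : y ∈ F := IntermediateField.mem_adjoin_simple_self E y
  have hxF : x ∈ F := F.algebraMap_mem ⟨x, hxE⟩
  have hkF : ∀ c ∈ IntermediateField.adjoin k {s}, c ∈ F := by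
    have h1 : IntermediateField.adjoin k {s} ≤ (F.restrictScalars K).restrictScalars k := by
      rw [IntermediateField.adjoin_simple_le_iff]
      change s ∈ F
      rw [← hs]
      exact F.add_mem (pow_mem hxF N) hxF
    intro c hc
    exact h1 hc
  have htop : F = ⊤ := by
    rw [eq_top_iff]
    intro z _
    obtain ⟨c, hc, hz⟩ := hspan z
    rw [hz]
    refine F.sum_mem fun i _ => F.sum_mem fun j _ => ?_
    exact F.mul_mem (F.mul_mem (hkF _ (hc i j)) (pow_mem hxF _)) (pow_mem hyF _)
  have hF1 : FiniteDimensional E F := IntermediateField.adjoin.finiteDimensional hy1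
  have hE1 : FiniteDimensional K E := IntermediateField.adjoin.finiteDimensional hx1
  have hF2 : Module.finrank E L ≤ p := by
    have h1 : Module.finrank E F = Module.finrank E L := by
      rw [htop]
      exact IntermediateField.finrank_top'
    rw [← h1]
    exact hy2
  have hF3 : FiniteDimensional E L := by
    have h1 : FiniteDimensional E (⊤ : IntermediateField E L) := by
      rw [← htop]
      exact hF1
    exact (IntermediateField.topEquiv (F := E) (E := L)).toLinearEquiv.finiteDimensional
  refine ⟨FiniteDimensional.trans K E L, ?_⟩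
  rw [← tower K E L]
  exact Nat.mul_le_mul hx2 hF2

end degree

section main

variable {p : ℕ} {k : Type} [Field k] [IsAlgClosed k] [Fact p.Prime] [CharP k p] {h : ℕ}

/-- the values of `w` on `H` -/
noncomputable def V (H : Subgroup (EG k p h)) [Finite H] : Finset k :=
  (Set.finite_range (fun g : H => g.1.w)).toFinset

theorem mem_V {H : Subgroup (EG k p h)} [Finite H] {v : k} : v ∈ V H ↔ ∃ g ∈ H, g.w = v := by
  rw [V, Set.Finite.mem_toFinset]
  constructor
  · rintro ⟨g, rfl⟩
    exact ⟨g.1, g.2, rfl⟩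
  · rintro ⟨g, hg, rfl⟩
    exact ⟨⟨g, hg⟩, rfl⟩

/-- the homomorphism `g ↦ g.w` -/
def wH (H : Subgroup (EG k p h)) : H →* Multiplicative k where
  toFun g := Multiplicative.ofAdd g.1.w
  map_one' := rfl
  map_mul' g g' := rfl

theorem ncard_ker (H : Subgroup (EG k p h)) (hH : ∀ g : EG k p h, g.w = 0 → g ∈ H) :
    ({g : H | g.1.w = 0} : Set H).ncard = p := by
  refine (Set.ncard_congr (t := {g : EG k p h | g.w = 0}) (fun g _ => g.1) (fun g hg => hg)
    (fun a b _ _ hab => Subtype.ext hab) ?_).trans (card_w_zero h)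
  intro g hg
  exact ⟨⟨g, hH g hg⟩, hg, rfl⟩

theorem card_H (H : Subgroup (EG k p h)) [Finite H] (hH : ∀ g : EG k p h, g.w = 0 → g ∈ H) :
    Nat.card H = (V H).card * p := by
  have h1 : Nat.card (wH H).ker = p :=
    (Nat.card_coe_set_eq ((wH H).ker : Set H)).trans (ncard_ker H hH)
  have h2 : Nat.card (wH H).range = (V H).card := by
    rw [← Set.ncard_coe_finset, ← Nat.card_coe_set_eq]
    refine Nat.card_congr (Equiv.subtypeEquiv Multiplicative.toAdd ?_)
    intro v
    rw [MonoidHom.mem_range, Finset.mem_coe, mem_V]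
    constructor
    · rintro ⟨g, rfl⟩
      exact ⟨g.1, g.2, rfl⟩
    · rintro ⟨g, hg, hv⟩
      exact ⟨⟨g, hg⟩, hv⟩
  have h3 := Subgroup.card_mul_index (wH H).ker
  rw [Subgroup.index_ker, h1, h2] at h3
  rw [← h3, mul_comm]

end main

end S2C

theorem s2c_thm (hCVR : S_CVR) (hCVF : S_CVF) (hCVB : S_CVB) (hCVC : S_CVC) (hRAM : S_RAM)
    (hEGC : S_EGC) : S_S2C := by
  intro p k _ _ _ _ h H hh hH
  have hp := (Fact.out : p.Prime)
  have hp1 : ¬ p ∣ 1 := by
    rw [Nat.dvd_one]
    exact hp.one_lt.ne'
  obtain ⟨L, fL, aL, s, x, y, ρ, P, hC⟩ := hCVR p k h 1 hh le_rfl hp1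
  obtain ⟨hfin, hcard⟩ := hEGC p k h hh
  have hfinH : Finite H := inferInstance
  have hcov := hCVC p k L h 1 s x y ρ P hh le_rfl hp1 hC
  have hfix := hCVF p k L h 1 s x y ρ P hh le_rfl hp1 hC
  have hb := hCVB p k L h 1 s x y ρ P hh le_rfl hp1 hC
  have hcH := S2C.card_H H hH
  have hV0 : (0 : k) ∈ S2C.V H := S2C.mem_V.2 ⟨1, H.one_mem, EG.one_w⟩
  have hV1 : 1 ≤ (S2C.V H).card := Finset.card_pos.2 ⟨0, hV0⟩
  have hox : P.ord x < 0 := by
    rw [hC.ord_x]
    have := hp.pos
    omega
  set t : L := ∏ v ∈ S2C.V H, (x - algebraMap k L v) with ht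
  have hot := S2C.ord_prod P hC.x_ne hox (S2C.V H)
  rw [← ht] at hot
  have hot' : P.ord t < 0 := by
    rw [hot.2]
    have : (1 : ℤ) ≤ (S2C.V H).card := by exact_mod_cast hV1
    nlinarith
  let ρ' : H →* (L ≃ₐ[k] L) := ρ.comp H.subtype
  have hρ' : ∀ g : H, ρ' g = ρ g.1 := fun g => rfl
  have hinj : Function.Injective ρ' := fun a b hab => Subtype.ext (hcov.inj hab)
  have htfix : ∀ g : H, ρ' g t = t := by
    intro g
    rw [hρ', ht, map_prod]
    refine Finset.prod_nbij' (fun v => v - g.1.w) (fun v => v + g.1.w) ?_ ?_ ?_ ?_ ?_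
    · intro v hv
      obtain ⟨g', hg', rfl⟩ := S2C.mem_V.1 hv
      exact S2C.mem_V.2 ⟨g' * g.1⁻¹, H.mul_mem hg' (H.inv_mem g.2), by
        rw [EG.mul_w, EG.inv_w]; ring⟩
    · intro v hv
      obtain ⟨g', hg', rfl⟩ := S2C.mem_V.1 hv
      exact S2C.mem_V.2 ⟨g' * g.1, H.mul_mem hg' g.2, by rw [EG.mul_w]⟩
    · intro v _
      ring
    · intro v _
      ring
    · intro v _
      rw [map_sub, hC.act_x, AlgEquiv.commutes, map_sub]
      ring
  refine ⟨L, fL, aL, ρ', t, ⟨hinj, S2C.transc P hot.1 hot'.ne, ?_, ?_⟩, P, hot', ?_⟩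
  · -- the fixed field
    set K : IntermediateField k L := IntermediateField.adjoin k {t} with hK
    obtain ⟨hKf, hKd⟩ := S2C.finrank_cover (S2C.V H) hV1 hp.two_le
      (by have := hC.eq_x; rwa [pow_one] at this) hC.eq_y hC.span
    rw [← ht, ← hK] at hKf hKd
    set R : Subgroup (L ≃ₐ[k] L) := ρ'.range with hR
    have hRfin : Finite R := by
      rw [hR]
      exact Finite.of_surjective ρ'.rangeRestrict ρ'.rangeRestrict_surjective
    have hRcard : Nat.card R = (S2C.V H).card * p := by
      rw [← hcH]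
      exact (Nat.card_congr (MonoidHom.ofInjective hinj).toEquiv).symm
    have hKR : K ≤ IntermediateField.fixedField R := by
      rw [hK, IntermediateField.adjoin_simple_le_iff]
      rintro ⟨σ, g, rfl⟩
      exact htfix g
    have hFcard : Module.finrank (IntermediateField.fixedField R) L = (S2C.V H).card * p := by
      have := Fintype.ofFinite R
      rw [← hRcard, Nat.card_eq_fintype_card]
      exact FixedPoints.finrank_eq_card R L
    have hEq : K = IntermediateField.fixedField R :=
      IntermediateField.eq_of_le_of_finrank_le' hKR (by rw [hFcard]; exact hKd)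
    intro z
    rw [hEq]
    constructor
    · rintro hz ⟨σ, g, rfl⟩
      exact hz g
    · intro hz g
      exact hz ⟨ρ' g, g, rfl⟩
  · -- unramified at the finite places
    intro P' hs g hg
    have hx : P'.Ge x 0 := by
      by_contra hcon
      obtain ⟨hx0, hxlt⟩ := P'.not_ge.1 hcon
      have h1 := (S2C.ord_prod P' hx0 hxlt (S2C.V H)).2
      rw [← ht] at h1
      rw [h1] at hs
      have : (1 : ℤ) ≤ (S2C.V H).card := by exact_mod_cast hV1
      nlinarith
    have hx' : P'.Ge (x ^ (p ^ h + 1)) 0 := by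
      refine Or.inr ?_
      rw [P'.ord_pow hC.x_ne]
      have := (P'.ge_iff hC.x_ne 0).1 hx
      positivity
    have hy : P'.Ge y 0 := S2C.int_of P' hp.two_le hx' hC.eq_y
    have hw : g.1.w = 0 := S2C.const_of P' hg hx (hC.act_x g.1)
    have hβ : g.1.β = 0 := by
      refine S2C.const_of P' hg hy ?_
      rw [hρ', hC.act_y g.1, hw, map_zero, Bf_zero_left, add_zero]
    exact Subtype.ext (EG.ext hw hβ)
  · -- the conductor
    have hmem : ∀ (i : ℕ) (g : H), 1 ≤ i → (g ∈ ram P ρ' i ↔
        g = 1 ∨ (g.1.w ≠ 0 ∧ i ≤ 1) ∨ (g.1.w = 0 ∧ i ≤ p ^ h + 1)) := by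
      intro i g hi
      rw [hRAM k L H P ρ' g i hi]
      constructor
      · rintro ⟨-, h1 | h1⟩
        · left
          exact hinj (by rw [h1, map_one])
        · by_cases hg : g = 1
          · exact Or.inl hg
          right
          have hg' : g.1 ≠ 1 := fun e => hg (Subtype.ext e)
          by_cases hw : g.1.w = 0
          · right
            refine ⟨hw, ?_⟩
            rw [hρ', (hb g.1 hg').2 hw] at h1
            have h2 : (i : ℤ) ≤ (p : ℤ) ^ h + 1 := by simpa using h1
            exact_mod_cast h2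
          · left
            refine ⟨hw, ?_⟩
            rw [hρ', (hb g.1 hg').1 hw] at h1
            exact_mod_cast h1
      · intro h1
        refine ⟨hfix g.1, ?_⟩
        by_cases hg : g = 1
        · left
          rw [hg, map_one]
        right
        have hg' : g.1 ≠ 1 := fun e => hg (Subtype.ext e)
        rcases h1 with h1 | ⟨hw, h1⟩ | ⟨hw, h1⟩
        · exact absurd h1 hg
        · rw [hρ', (hb g.1 hg').1 hw]
          exact_mod_cast h1
        · rw [hρ', (hb g.1 hg').2 hw]
          have h2 : (i : ℤ) ≤ (p : ℤ) ^ h + 1 := by exact_mod_cast h1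
          simpa using h2
    have h1w : (1 : H).1.w = 0 := EG.one_w
    have hq1 : 1 ≤ p ^ h := Nat.one_le_pow _ _ hp.pos
    have r1 : (ram P ρ' 1).ncard = Nat.card H := by
      have : ram P ρ' 1 = Set.univ := by
        ext g
        rw [hmem 1 g le_rfl]
        simp only [Set.mem_univ, iff_true]
        by_cases hw : g.1.w = 0
        · exact Or.inr (Or.inr ⟨hw, by omega⟩)
        · exact Or.inr (Or.inl ⟨hw, le_rfl⟩)
      rw [this, Set.ncard_univ]
    have r2 : ∀ i : ℕ, 1 < i → i ≤ p ^ h + 1 → (ram P ρ' i).ncard = p := by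
      intro i hi him
      have : ram P ρ' i = {g : H | g.1.w = 0} := by
        ext g
        rw [hmem i g (by omega)]
        simp only [Set.mem_ofPred_eq]
        constructor
        · rintro (h1 | ⟨hw, h1⟩ | ⟨hw, h1⟩)
          · rw [h1]; exact h1w
          · omega
          · exact hw
        · intro hw
          exact Or.inr (Or.inr ⟨hw, him⟩)
      rw [this, S2C.ncard_ker H hH]
    have r3 : ram P ρ' (p ^ h + 1 + 1) = {1} := by
      ext g
      rw [hmem _ g (by omega)]
      simp only [Set.mem_singleton_iff]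
      constructor
      · rintro (h1 | ⟨hw, h1⟩ | ⟨hw, h1⟩)
        · exact h1
        · omega
        · omega
      · exact Or.inl
    have r0 : (ram P ρ' 0).ncard = Nat.card H := by
      have : ram P ρ' 0 = Set.univ := by
        ext g
        simp only [Set.mem_univ, iff_true]
        refine ⟨hfix g.1, fun u hu hu1 => ?_⟩
        have h1 : P.Ge (ρ' g u - u) 1 := by
          refine P.ge_sub ((hfix g.1).ge ?_) ?_
          · exact Or.inr hu1.ge
          · exact Or.inr hu1.ge
        rcases h1 with h1 | h1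
        · exact Or.inl (sub_eq_zero.1 h1)
        · right
          push_cast
          linarith
      rw [this, Set.ncard_univ]
    refine ⟨p ^ h + 1, ?_, r3, ?_⟩
    · intro h0
      have h2 := r2 (p ^ h + 1) (by omega) le_rfl
      rw [h0, Set.ncard_singleton] at h2
      exact hp.one_lt.ne h2
    · have hsum : ∑ i ∈ Icc 1 (p ^ h + 1), ((ram P ρ' i).ncard : ℚ) =
          (Nat.card H : ℚ) + (p : ℚ) ^ h * p := by
        have hsplit : Icc 1 (p ^ h + 1) = insert 1 (Icc 2 (p ^ h + 1)) := by
          ext i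
          simp only [mem_insert, mem_Icc]
          omega
        rw [hsplit, sum_insert (by simp), r1]
        have s2 : ∑ i ∈ Icc 2 (p ^ h + 1), ((ram P ρ' i).ncard : ℚ) =
            ∑ i ∈ Icc 2 (p ^ h + 1), (p : ℚ) := by
          refine sum_congr rfl fun i hi => ?_
          rw [mem_Icc] at hi
          rw [r2 i (by omega) hi.2]
        rw [s2, sum_const, Nat.card_Icc, nsmul_eq_mul]
        have e2 : p ^ h + 1 + 1 - 2 = p ^ h := by omega
        rw [e2]
        push_cast
        ring
      rw [hsum, r0]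
      have hH0 : (Nat.card H : ℚ) ≠ 0 := by
        rw [hcH]
        exact_mod_cast (Nat.mul_pos hV1 hp.pos).ne'
      field_simp

end Pool.CND
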